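import Pool.Agent.Helper59.IP.SumI
import Pool.Graph.R_pool_sql_team_seeded_2aa45f1a.Q193.LT.Crit

/-!
# The de Rham-Betti conjecture and independence polynomials of graphs

Let `K` be a subfield of the field of algebraic numbers and let `M` be the category of André motives over
`K`, a semisimple abelian category with Tate twists `N ↦ N(a)`. For a separated scheme `X` of finite type
over `ℚ` let `D.H i X` be the object of `M` given by the graded object of the weight filtration of the
cohomology with compact supports `H^i_c(X_K)`; for smooth projective `X` it is the motive `h^i(X_K)`.

For a motive `N` let `dRB N` be the equality `Ω^dRB_N = Ω^And_N` of question Q1. If a motive has this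
property, then so does every object of the Tannakian category generated by it, in particular every
direct factor (see the problem file; hypothesis `inherit`).

Every smooth projective variety over `K` is a union of connected components of `Y_K` for a smooth
projective variety `Y` over `ℚ`. So every André motive over `K` is a direct factor of a finite direct
sum of Tate twists of motives `h^i(Y_K)`, and question Q1 for `K` says that `dRB` is true for all these
finite direct sums, that is `SumsHave D (OfProjAll D) dRB`.

For a graph `G` with the vertices `V` let `I_G = ∑_s ∏_{v ∈ s} x_v`, the sum over the independent sets `s`
(sets of pairwise non-adjacent vertices) of `G`: the multivariate independence polynomial. It is the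
partition function of the lattice gas on `G` with hard core interaction and activities `x_v`. `G` runs
through the graphs whose vertices are covered by three cliques (`ThreeCliques`), so that an independent set
has at most three elements and `I_G` is a cubic polynomial: the sum of `∏_{v ∈ s} x_v` over all cliques `s`
of the 3-colourable complementary graph.

**Theorem.** The equality `Ω^dRB_N = Ω^And_N` is true for all André motives `N` over `K` if and only if it
is true for all finite direct sums of Tate twists of the motives `Gr^W H^i_c(X_K)`, where `X` is a point or

* the complement of `I_G = 0` in the affine space, for these graphs `G`; or
* the cubic hypersurface `I_G = 0`, for these graphs `G`; or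
* the complement of `I_G = 0` in the torus, for these graphs `G`; or
* the intersection of `I_G = 0` with the torus, for these graphs `G`.

The universality theorem for these polynomials is `Pool.Agent.Helper59.IP.ind_tfae`: a property of schemes
of finite type that is closed under closed-open decompositions and the usual affine bundles is true for all
schemes if it is true for the complements of the hypersurfaces `I_G = 0`. The idea: let `Γ` be covered by
two cliques and `A_1, …, A_m` sets of vertices. Add to `Γ` a vertex `w` adjacent to `Γ`, a clique of
vertices `v_r` adjacent to `w` and to the vertices of `Γ` outside of `A_r`, and a vertex `u` adjacent to the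
`v_r`. The graph is covered by three cliques and has the polynomial `(1 + u)(w + I_Γ) + ∑_r v_r I_{A_r}`.
Cutting along `w + I_Γ = 0`, passing from the invertible values of `∑ v_r I_{A_r}` to the value one, and
using Jouanolou's device one arrives at the common zeros of the polynomials `I_{A_r}` of the induced
subgraphs, and these describe the trilinear hypersurfaces `T = 1`, which are universal by a theorem of the
library.
-/

set_option autoImplicit false

open CategoryTheory AlgebraicGeometry Pool.Agent.Y116.UV Pool.Agent.Z125.UN Pool.Agent.Q193.LT
  Pool.Agent.Helper3.GU Pool.Agent.Helper59.IP

universe v u

namespace Pool.Agent.Results.MP_470b79_ag.IndependencePolynomials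

/-- **The de Rham-Betti conjecture and independence polynomials.** See the explanations above. -/
theorem result {M : Type u} [Category.{v} M] [Abelian M] {D : CompactData ℚ M} (h : IsMotives D)
    {dRB : M → Prop} (inherit : ∀ {N N' : M} (i : N ⟶ N') (r : N' ⟶ N), i ≫ r = 𝟙 N →
      dRB N' → dRB N) :
    List.TFAE [SumsHave D (OfProjAll D) dRB,
      SumsHave D (OfThreeCliques D fun _ G => indS ℚ G) dRB,
      SumsHave D (OfThreeCliques D fun _ G => indH ℚ G) dRB,
      SumsHave D (OfThreeCliques D fun _ G => indT ℚ G) dRB,
      SumsHave D (OfThreeCliques D fun _ G => indHT ℚ G) dRB] :=
  sums_ind h.compact h.generated h.semisimple inherit frac_rat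

end Pool.Agent.Results.MP_470b79_ag.IndependencePolynomials
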