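import Pool.Agent.Helper5.EqRankE

set_option autoImplicit false

/-!
# The de Rham-Betti group of a motive of abelian type: normalizing tori

Let `A` be an abelian variety over `ℚ̄` and let `M` be any André motive over `ℚ̄` in the tensor
category generated by `h^1(A)` and the Tate motives. (By theorems of André this class of motives,
for all `A`, contains the motives of products of curves, abelian varieties, K3 surfaces,
hyperkähler varieties, cubic fourfolds and Fermat hypersurfaces.) Let `G ⊆ GL(H_B(M))` be *any*
algebraic group over `ℚ` such that the comparison isomorphism is a point of a torsor of `G` defined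
over `ℚ̄`: `P T ∈ G(ℂ)` for some matrix `T` with algebraic entries, where `P` is the matrix of the
periods. The smallest such `G` is the de Rham-Betti group of `M` over `ℚ̄`. By theorems of Deligne and
André the motivic Galois group of `M` is its Mumford-Tate group `MT(M)`. The question is whether
`Ω^dRB_M = Ω^And_M`, that is, whether every such `G` contains `MT(M)`.

Let `Hg(M)` be the Hodge group of `M`, so that `MT(M)` is generated by `Hg(M)` and the weights, which
are central.

**Theorem.** Let `x ∈ Hg(M)(ℂ)` be an element which normalizes the Lie algebra of `G`. Assume that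
the elements of `Lie Hg(M)` which normalize the Lie algebra of `G` generate, together with the subspace
`(Ad(x) - 1) Lie Hg(M)`, the vector space `Lie Hg(M)`. Then `G` contains the derived group of `MT(M)`.
Hence `G` contains `MT(M)` if and only if it contains the connected centre of `Hg(M)`; for example
if this centre is trivial.

If `x` is semisimple, then `Lie Hg(M)` is the sum of `(Ad(x) - 1) Lie Hg(M)` and of the centralizer
of `x`. So the assumption is true if `x` is semisimple and all elements of `Lie Hg(M)` which commute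
with `x` normalize the Lie algebra of `G`. If `x` is a general element of a maximal torus of `Hg(M)`,
these elements are the elements of the Lie algebra of the torus. Hence: *if the de Rham-Betti group of
`M` is normalized by some maximal torus of `MT(M)`, then it contains the derived group of `MT(M)`.* In
other words, if the Lie algebra of the de Rham-Betti group is a sum of a subspace of a Cartan algebra
of `Lie MT(M)` and of root spaces (a regular subalgebra in the sense of Dynkin), then all root
spaces occur.

The group `G` is not assumed to be reductive, connected or contained in `MT(M)`. The element `x` is not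
assumed to be an element of `G` or to be semisimple. In the case where the elements which commute with
`x` are in the Lie algebra of `G`, and not only in its normalizer, there is the result `RankCriterion`
on the transcendence degree of the periods of `M` (problem MP_57341d_ag).

For `M = h^1(A)` the commutant of `G` in `End(H^1(A))` is determined by the theorem of Wüstholz, and
the theorem for maximal tori and reductive groups is then a consequence of a lemma of Zarhin on
reductive Lie algebras with the same rank and the same commutant. For a general motive `M` nothing is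
known about the commutant of `G` in `End(H_B(M))`, since no theorem on linear forms in the periods
of `M` is available: `M` can be a motive of weight two attached to some of the simple factors of
`MT(A)`, where no power of `h^1(A)` is in the tensor category generated by `M`.

## Motives

As `h^1(A)` is dual to `h^1(A)(1)`, the motive `M` is a direct factor of a sum of motives
`h^1(A) ^ {⊗ r i} (w i)`. Its Betti realization is a space of families of multilinear forms with
rational values, in `r i` variables in `H_1(A, ℚ)`, with a basis `B`. It is the image of a motivated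
projector, and the realizations of motivated classes are Hodge classes and de Rham-Betti classes; so
it is stable under the Lie algebra `𝔤` of the endomorphisms of `H_1(A, ℚ)` which annihilate all
classes that are Hodge classes and de Rham-Betti classes (`InLie`), and under the weights. The de Rham
realization has a basis which consists of combinations of products of elements of `H^1_dR(A / ℚ̄)`
with algebraic coefficients. The matrix `P` of the periods expresses it in terms of the basis
`(2 π i) ^ (w i) B` of the Betti realization (`IsMotive`). (By theorems of Deligne and André all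
subspaces which are stable under `𝔤` and the weights are obtained from motives.) By the theorem of
Deligne all Hodge classes on abelian varieties are de Rham-Betti classes, so that `𝔤` is the Lie
algebra of the Hodge group of `A`, its image in `End(H_B(M))` is the Lie algebra of `Hg(M)`, and
`Hg(M)(ℂ)`, a connected group, is generated by the exponentials of the complex combinations of the
elements of this image (`hodgeGroup`).

Nothing is assumed about periods: `AbVar` is the description of an abelian variety over `ℚ̄` by theta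
functions (see `Pool/Agent/Y102/AVDefs.lean`, where it is explained why every abelian variety has it),
and the transcendence theorems which are used, the theorem of Schneider and Lang and the
transcendence of `π`, are proved in this repository.

## Proof

Let `ρ` be the action of `𝔤` on `M`, `𝔨` its kernel, and let `𝔮` be the set of the `X` in `𝔤` such that
`ρ(X)` is in the Lie algebra of `G` up to a multiple of the weight. By the theorem of Schneider and
Lang `𝔮` acts semisimply on `H_1(A)` with the same commutant as `𝔤`, so the two Lie algebras generate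
the same associative algebra `𝒜`. We have `𝔤 = 𝔨 ⊕ 𝔨'`, where the ideal `𝔨'` commutes with `𝔨`, and
`x` lifts to an element `y` of `𝒜` which commutes with `𝔨` and acts on `𝔨' ⊗ ℂ` by conjugation as `x`
acts on `ρ(𝔤) ⊗ ℂ`. Let `𝔫` be the normalizer of `𝔮 ⊗ ℂ` in `𝔤 ⊗ ℂ`, and let `V` be the orthogonal
complement of `𝔫` in `𝔨' ⊗ ℂ` for the trace form of `H_1(A)`. It is stable under `𝔮` and `y`. By
assumption `𝔤 ⊗ ℂ` is the sum of `𝔫` and `(Ad(y) - 1) (𝔤 ⊗ ℂ)`, and an element of `V` which commutes
with `y` is orthogonal to both; so no nonzero element of `V` commutes with `y`. By the lemma on traces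
(`Pool.Agent.Helper5.TrKey.key`) the space `V` is orthogonal to `y 𝒜 = 𝒜`, so that `V = 0`: this
step replaces the theory of root systems and the representation theory of reductive groups. Hence
`𝔫 = 𝔤 ⊗ ℂ`, and `𝔮` is an ideal of `𝔤` with the same commutant as `𝔤`, so it contains `[𝔤, 𝔤]`.
-/

open Module Matrix Pool.Agent.Y102 Pool.Agent.W516.DR Pool.Agent.H204R3.GP

noncomputable section

namespace Pool.Agent.Results.MP_470b79_ag.NormalizedByTorus

variable {g : ℕ} (A : AbVar g)

/-! ### The Lie algebra -/

/-- The multilinear forms in `2m` variables in the rational homology. -/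
abbrev Form (m : ℕ) : Type := MultilinearMap ℚ (fun _ : Fin m × Fin 2 => A.H1) ℚ

/-- `φ` is a de Rham-Betti class in `H^1(A) ^ {⊗ 2m} (m)`. -/
def IsDRB {m : ℕ} (φ : Form A m) : Prop :=
  IsDeRhamBettiForm QBar A.dR (2 * Real.pi * Complex.I) m φ

/-- `φ` is a Hodge class in `H^1(A) ^ {⊗ 2m} (m)`. -/
def IsHodge {m : ℕ} (φ : Form A m) : Prop := IsHodgeTensor (A.per : A.H1 →+ (Fin g → ℂ)) φ

/-- The endomorphism `X` annihilates the form `φ` (as a derivation). -/
def Annihilates {m : ℕ} (X : Module.End ℚ A.H1) (φ : Form A m) : Prop :=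
  ∀ v, ∑ k, φ (Function.update v k (X (v k))) = 0

/-- `X` is in the Lie algebra `𝔤`: it annihilates all classes that are Hodge classes and
de Rham-Betti classes. -/
def InLie (X : Module.End ℚ A.H1) : Prop :=
  ∀ (m : ℕ) (φ : Form A m), IsHodge A φ → IsDRB A φ → Annihilates A X φ

/-! ### Motives -/

variable {s n : ℕ} (r : Fin s → ℕ) (w : Fin s → ℤ)

/-- The Betti realization of the sum of the motives `h^1(A) ^ {⊗ r i} (w i)`: families of multilinear
forms in `r i` variables in the rational homology. -/
abbrev Tensors : Type := ∀ i : Fin s, MultilinearMap ℚ (fun _ : Fin (r i) => A.H1) ℚ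

variable {A r}

/-- The endomorphism `X` acts, as a derivation, on the elements of the basis `B` by the matrix `M`. -/
def IsLieMatrix (B : Fin n → Tensors A r) (X : Module.End ℚ A.H1)
    (M : Matrix (Fin n) (Fin n) ℚ) : Prop :=
  ∀ a i v, ∑ k, B a i (Function.update v k (X (v k))) = ∑ b, M b a * B b i v

/-- The subspace with the basis `B` is the Betti realization of a direct factor `M` of the sum of the
motives `h^1(A) ^ {⊗ r i} (w i)`, and `P` is the matrix of the periods of `M` for the basis `B` and for
some basis of the de Rham realization of `M` over `ℚ̄`. -/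
structure IsMotive (B : Fin n → Tensors A r) (P : Matrix (Fin n) (Fin n) ℂ) : Prop where
  /-- `B` is a basis of a subspace -/
  basis : LinearIndependent ℚ B
  /-- the subspace is stable under `𝔤` -/
  lie : ∀ X, InLie A X → ∃ M : Matrix (Fin n) (Fin n) ℚ, IsLieMatrix B X M
  /-- the subspace is stable under the weights -/
  weight : ∃ M : Matrix (Fin n) (Fin n) ℚ, ∀ a i v,
    ((r i : ℚ) - 2 * w i) * B a i v = ∑ b, M b a * B b i v
  /-- the de Rham realization has a basis of elements with algebraic coefficients in terms of the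
  tensor products of the elements of the basis of `H^1_dR(A / ℚ̄)` -/
  deRham : ∃ c : Fin n → ∀ i : Fin s, (Fin (r i) → Fin g ⊕ Fin g) → ℂ,
    (∀ a i J, IsAlgebraic ℚ (c a i J)) ∧ ∀ a i (v : Fin (r i) → A.H1),
      ∑ J, c a i J * ∏ k, A.dR (J k) (v k) =
        (2 * Real.pi * Complex.I) ^ (w i) * ∑ b, P b a * (B b i v : ℂ)
  /-- the matrix of the periods is invertible -/
  det : P.det ≠ 0

/-- The complex span of the matrices of the elements of `𝔤`: the Lie algebra of `Hg(M)(ℂ)`. -/
def complexLie (B : Fin n → Tensors A r) : Submodule ℂ (Matrix (Fin n) (Fin n) ℂ) :=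
  Submodule.span ℂ {Z | ∃ X, InLie A X ∧ ∃ M : Matrix (Fin n) (Fin n) ℚ, IsLieMatrix B X M ∧
    Z = M.map fun q => (q : ℂ)}

/-- The complex points of the Hodge group of `M`: the group generated by the exponentials of the
elements of its Lie algebra. -/
def hodgeGroup (B : Fin n → Tensors A r) : Subgroup (GL (Fin n) ℂ) :=
  Subgroup.closure {x | ∃ Z ∈ complexLie B,
    (x : Matrix (Fin n) (Fin n) ℂ) = NormedSpace.exp Z}

/-! ### Algebraic groups, torsors and the Mumford-Tate group -/

/-- A subgroup of `GL_R(ℂ)` defined by polynomials with rational coefficients. -/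
def IsAlgebraicSubgroup {R : Type} [Fintype R] [DecidableEq R] (G : Subgroup (GL R ℂ)) : Prop :=
  ∃ I : Set (MvPolynomial (R × R) ℚ), ∀ x : GL R ℂ, x ∈ G ↔
    ∀ p ∈ I, MvPolynomial.aeval (fun b : R × R => (x : Matrix R R ℂ) b.1 b.2) p = 0

/-- The torsor `G · T⁻¹` of `G`: the matrices `F` such that `F T` is an element of `G`. It is
defined over `ℚ̄` if `T` is a matrix with algebraic entries. -/
def torsor (G : Subgroup (GL (Fin n) ℂ)) (T : Matrix (Fin n) (Fin n) ℂ) :
    Set (Matrix (Fin n) (Fin n) ℂ) :=
  {F | ∃ x ∈ G, (x : Matrix (Fin n) (Fin n) ℂ) = F * T}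

/-- The matrix `Z` is in the Lie algebra of `G`: the one-parameter subgroup is contained in `G`. -/
def IsTangent (G : Subgroup (GL (Fin n) ℂ)) (Z : Matrix (Fin n) (Fin n) ℂ) : Prop :=
  ∀ t : ℂ, ∃ y ∈ G, (y : Matrix (Fin n) (Fin n) ℂ) = NormedSpace.exp (t • Z)

/-- The matrix `Z` normalizes the Lie algebra of `G`. -/
def NormalizesLie (G : Subgroup (GL (Fin n) ℂ)) (Z : Matrix (Fin n) (Fin n) ℂ) : Prop :=
  ∀ Y, IsTangent G Y → IsTangent G (Z * Y - Y * Z)

variable (A) in
/-- The Hodge structure of `H^1(A)`: the complex number `z` acts on `H_1(A, ℝ) = ℂ ^ g` by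
multiplication, and on `H^1(A, ℝ)` by the transposed map, here in the basis of `H^1(A, ℚ)` which is
dual to the basis of the lattice. -/
def hodge (z : ℂ) : Matrix (Fin (2 * g)) (Fin (2 * g)) ℂ :=
  Matrix.of fun i j => ((A.lam.repr (z • A.lam i) j : ℝ) : ℂ)

/-- `R` is the matrix of the action of the complex number `z` on `M`, in the Hodge structure given by
those of `H^1(A)` and of the Tate motives (`z` acts on `ℚ(1)` by `(z z̄)⁻¹`). -/
def IsHodgeMatrix (B : Fin n → Tensors A r) (z : ℂ) (R : Matrix (Fin n) (Fin n) ℂ) : Prop :=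
  ∀ a i (j : Fin (r i) → Fin (2 * g)),
    ∑ j' : Fin (r i) → Fin (2 * g), (∏ k, hodge A z (j k) (j' k)) *
        (B a i (fun k => Pi.single (j' k) 1) : ℂ) =
      (z * (starRingEnd ℂ) z) ^ (w i) * ∑ b, R b a * (B b i (fun k => Pi.single (j k) 1) : ℂ)

/-- The Mumford-Tate group of `M`: the smallest algebraic group over `ℚ` which contains the image of
the Deligne torus. -/
def mumfordTate (B : Fin n → Tensors A r) : Subgroup (GL (Fin n) ℂ) :=
  sInf {G | IsAlgebraicSubgroup G ∧ ∀ z : ℂ, z ≠ 0 → ∃ x ∈ G,
    IsHodgeMatrix w B z (x : Matrix (Fin n) (Fin n) ℂ)}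

/-- **Theorem.** Let `M` be a motive in the tensor category generated by `h^1(A)` and the Tate motives,
with the matrix `P` of periods, and let `G` be an algebraic group over `ℚ` with a torsor over `ℚ̄`
which contains `P`. Let `x` be an element of the Hodge group of `M` which normalizes the Lie algebra
of `G`, and assume that every element of the complexified Lie algebra of the Hodge group is the sum of
an element of this Lie algebra which normalizes the Lie algebra of `G` and of an element
`x Z x⁻¹ - Z`. Then the Lie algebra of `G` contains the derived algebra of the Lie algebra of the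
Hodge group. If it contains the centre, too, then `G` contains the Mumford-Tate group of `M`. -/
theorem result {g s n : ℕ} (A : AbVar g) (r : Fin s → ℕ) (w : Fin s → ℤ)
    (B : Fin n → Tensors A r) (P : Matrix (Fin n) (Fin n) ℂ) (hM : IsMotive w B P)
    (G : Subgroup (GL (Fin n) ℂ)) (hG : IsAlgebraicSubgroup G) (T : Matrix (Fin n) (Fin n) ℂ)
    (hT : ∀ i j, IsAlgebraic ℚ (T i j)) (hP : P ∈ torsor G T)
    (x : GL (Fin n) ℂ) (hx : x ∈ hodgeGroup B)
    (hn : ∀ Z, IsTangent G Z ↔ IsTangent G ((x : Matrix (Fin n) (Fin n) ℂ) * Z *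
      ((x⁻¹ : GL (Fin n) ℂ) : Matrix (Fin n) (Fin n) ℂ)))
    (hs : ∀ Z ∈ complexLie B, ∃ Z₁ ∈ complexLie B, ∃ Z₂ ∈ complexLie B, NormalizesLie G Z₁ ∧
      Z = Z₁ + ((x : Matrix (Fin n) (Fin n) ℂ) * Z₂ *
        ((x⁻¹ : GL (Fin n) ℂ) : Matrix (Fin n) (Fin n) ℂ) - Z₂)) :
    (∀ Z ∈ complexLie B, ∀ Z' ∈ complexLie B, IsTangent G (Z * Z' - Z' * Z)) ∧
      ((∀ Z ∈ complexLie B, (∀ Z' ∈ complexLie B, Z * Z' = Z' * Z) → IsTangent G Z) →
        mumfordTate w B ≤ G) := by
  have hrelL : ∀ X M, N208.AM.Rel B X M ↔ IsLieMatrix B X M := by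
    intro X M
    constructor
    · intro h a i v
      have h1 := congrArg (fun φ : MultilinearMap ℚ (fun _ : Fin (r i) => A.H1) ℚ => φ v) (h a i)
      simp only [N208.AM.dact_apply, _root_.sum_apply, _root_.smul_apply, smul_eq_mul] at h1
      exact h1
    · intro h a i
      refine MultilinearMap.ext fun v => ?_
      rw [N208.AM.dact_apply, _root_.sum_apply, h a i v]
      rfl
  obtain ⟨hM', Wt, hW⟩ : N208.AM.Mot w B P ∧ ∃ Wt, N208.AM.WRel w B Wt := by
    have hwt : ∃ M, N208.AM.WRel w B M := by
      obtain ⟨M, h⟩ := hM.weight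
      refine ⟨M, fun a i => MultilinearMap.ext fun v => ?_⟩
      rw [_root_.smul_apply, _root_.sum_apply, smul_eq_mul, h a i v]
      rfl
    refine ⟨⟨hM.basis, fun X hX => ?_, hwt, hM.det, hM.deRham⟩, hwt⟩
    obtain ⟨M, h⟩ := hM.lie X hX
    exact ⟨M, (hrelL X M).2 h⟩
  have hb : ∀ j : Fin (2 * g), A.bas j = Pi.single j 1 := fun j => by
    unfold AbVar.bas
    rw [Pi.basisFun_apply]
  have hrel : ∀ z R, N208.AM.HRel w B z R → IsHodgeMatrix w B z R := by
    intro z R h a i j
    have h1 := h a i j
    simp only [hb] at h1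
    exact h1
  have hdet : T.det ≠ 0 := by
    obtain ⟨x, -, hxT⟩ := hP
    intro h0
    have h1 : (x : Matrix (Fin n) (Fin n) ℂ).det = 0 := by
      rw [hxT, Matrix.det_mul, h0, mul_zero]
    exact (Matrix.GeneralLinearGroup.det x).ne_zero h1
  obtain ⟨T', h1, h2⟩ := Pool.Agent.R917.alg_inv hT hdet
  obtain ⟨z, hz, hzT⟩ := hP
  have hgrp := Pool.Agent.R917.algGrp_of hG
  have hH : N208.AM.PtM P {M | ∃ x ∈ G, (x : Matrix (Fin n) (Fin n) ℂ) = M} :=
    ⟨hgrp, T, T', h1, h2, z, hz, hzT⟩
  have hSC : complexLie B = Helper5.ER.SC B := by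
    unfold complexLie Helper5.ER.SC
    congr 1
    ext M
    constructor
    · rintro ⟨X, hX, Mq, hMq, rfl⟩
      exact ⟨X, hX, Mq, (hrelL _ _).2 hMq, rfl⟩
    · rintro ⟨X, hX, Mq, hMq, rfl⟩
      exact ⟨X, hX, Mq, (hrelL _ _).1 hMq, rfl⟩
  have hx' : x ∈ N208.AD.HG B := by
    unfold hodgeGroup at hx
    rw [hSC] at hx
    exact hx
  have hq := N208.AM.qM_full hM' hW hH
  have htan : ∀ Z, IsTangent G Z ↔ ∀ d,
      TH119.MX.Stab {M | ∃ x ∈ G, (x : Matrix (Fin n) (Fin n) ℂ) = M} d Z := fun Z =>
    ⟨fun hZ d => Helper5.ER.stab_of_exp hgrp hZ d,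
      fun hZ t => Pool.Agent.R917.exp_mem hgrp fun d => (hZ d).smul t⟩
  have hx'' := Subgroup.inv_mem _ hx'
  obtain ⟨x₀, ⟨y, e1, e2, e3⟩, e4, e5⟩ := Helper5.ER.tr_mem2 hM' hx'
  have hS : Helper5.ER.Sit (Wt := Wt) B {M | ∃ x ∈ G, (x : Matrix (Fin n) (Fin n) ℂ) = M}
      x y x₀ := ⟨e1, e2, e3, e4, e5, N208.AD.HG_wt hM' hW hx',
    fun Z hZ d => (htan _).1 ((hn Z).1 ((htan Z).2 hZ)) d⟩
  have hS' : Helper5.ER.Sit (Wt := Wt) B {M | ∃ x ∈ G, (x : Matrix (Fin n) (Fin n) ℂ) = M}
      x⁻¹ y⁻¹ x₀⁻¹ := ⟨e2, by rwa [inv_inv, inv_inv], Subgroup.inv_mem _ e3, e5,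
        by rwa [inv_inv, inv_inv], N208.AD.HG_wt hM' hW hx'', fun Z hZ d => by
      refine (htan _).1 ((hn _).2 ?_) d
      have e : (x : Matrix (Fin n) (Fin n) ℂ) * (((x⁻¹ : GL (Fin n) ℂ) :
          Matrix (Fin n) (Fin n) ℂ) * Z * (((x⁻¹)⁻¹ : GL (Fin n) ℂ) :
          Matrix (Fin n) (Fin n) ℂ)) * ((x⁻¹ : GL (Fin n) ℂ) : Matrix (Fin n) (Fin n) ℂ) = Z := by
        rw [inv_inv, mul_assoc, mul_assoc, mul_assoc, Units.mul_inv, mul_one, ← mul_assoc,
          Units.mul_inv, one_mul]
      rw [e]
      exact (htan Z).2 hZ⟩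
  have hid := Helper5.ER.qM_ideal hM' hW hgrp hq (hS.toG hM') (hS'.toG hM') (by
    intro Z hZ
    obtain ⟨Z₁, h1, Z₂, h2, h3, h4⟩ := hs Z (hSC ▸ hZ)
    exact ⟨Z₁, hSC ▸ h1, Z₂, hSC ▸ h2, fun Y hY d => (htan _).1 (h3 Y ((htan Y).2 hY)) d, h4⟩)
  have h5 : ∀ Z ∈ complexLie B, ∀ Z' ∈ complexLie B, IsTangent G (Z * Z' - Z' * Z) :=
    fun Z hZ Z' hZ' => (htan _).2 fun d =>
      Helper5.ER.part3 hM' hW hq hid (hSC ▸ hZ) (hSC ▸ hZ') d
  refine ⟨h5, fun hc => sInf_le ⟨hG, fun z hz => ?_⟩⟩
  have h6 : ∀ X ∈ A.NA, ∀ M, N208.AM.Rel B X M → M ∈ N208.AM.LQ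
      {M | ∃ x ∈ G, (x : Matrix (Fin n) (Fin n) ℂ) = M} := by
    intro X hX M hM1
    obtain ⟨Z, hZ, d, hd, rfl, hcm⟩ := N208.AM.full_NA.dec hX
    obtain ⟨M1, hM2⟩ := hM'.st Z hZ
    have h7 : M1 ∈ N208.AM.LQ {M | ∃ x ∈ G, (x : Matrix (Fin n) (Fin n) ℂ) = M} := by
      refine fun d => (htan _).1 (hc _ (Submodule.subset_span ⟨Z, hZ, M1, (hrelL _ _).1 hM2, rfl⟩)
        fun Z' hZ' => ?_) d
      induction hZ' using Submodule.span_induction with
      | mem Z' hZ' =>
        obtain ⟨X', hX', M', hM3, rfl⟩ := hZ'
        have h8 := ((hrelL _ _).2 hM3).br hM2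
        rw [← hcm X' hX', sub_self] at h8
        have h9 := N208.AM.Rel.zero.uniq hM'.li h8
        have e : ∀ M N : Matrix (Fin n) (Fin n) ℚ, (M.map fun q => (q : ℂ)) *
            (N.map fun q => (q : ℂ)) = (M * N).map fun q => (q : ℂ) :=
          fun M N => (N208.AM.cq_mul M N).symm
        rw [e, e, sub_eq_zero.1 h9.symm]
      | zero => rw [zero_mul, mul_zero]
      | add a b _ _ ha hb => rw [add_mul, mul_add, ha, hb]
      | smul c a _ ha => rw [smul_mul_assoc, mul_smul_comm, ha]
    obtain ⟨M2, hM3, h8⟩ := Helper5.ER.der_stab' hM' hW hq hid hd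
    rw [hM1.uniq hM'.li (hM2.add hM3)]
    exact (N208.AM.LQ _).add_mem h7 h8
  obtain ⟨R, ⟨u, hu, rfl⟩, hR⟩ := Helper5.ER.part2c hM' hW hH h6 hz
  exact ⟨u, hu, hrel _ _ hR⟩

end Pool.Agent.Results.MP_470b79_ag.NormalizedByTorus
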