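import Pool.Agent.Helper10.PC.Sums

/-!
# The de Rham-Betti conjecture and smooth moduli spaces of planar configurations

Let `K` be a subfield of `ℚ̄`, and let `𝓜` be the semisimple category of the André motives over `K`. For a
motive `N` in `𝓜` let `dRB N` be the statement of Question 1 for `N`: the de Rham-Betti torsor of `N` is
equal to the motivic torsor. This property is inherited by the direct factors (in fact by all objects of
the tensor category generated by `N`).

For a separated scheme `X` of finite type over `ℚ`, an integer `n ≥ 0` and an integer `j` let `H n j X` be
the motive `Gr^W_n H^n_c(X_K)(j)` in `𝓜`: the Tate twist by `j` of the part of weight `n` of the cohomology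
with compact supports in the degree `n` (the cohomology in degree zero of the complex
`H^n(Y^•)` for the weight complex `Y^•` of `X_K`). For smooth projective `X` this is `H^n(X_K)(j)`; for a
smooth scheme `X` of pure dimension `n` it is, up to a twist, the dual of `W_n H^n(X_K)`, the image of
`H^n` of a smooth compactification in the cohomology of `X`.

A matroid `M` of rank three on the set `Fin 4 ⊕ Fin m` is **framed** if any three of the four elements of
`Fin 4` form a base; it is **simple** if any two elements are independent. Let `modS ℚ M` be the moduli
space of the configurations of `m + 4` different points in the projective plane in which exactly the triples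
prescribed by `M` are collinear, modulo projective transformations: the four points of `Fin 4` are the
points of `e_1, e_2, e_3, e_1 + e_2 + e_3`, and the other ones have normalised coordinates.

**Theorem.** (1) For each separated scheme `X` of finite type over `ℚ` there is a finite list `L` of simple
matroids of rank three, whose moduli spaces are integral, smooth, and of dimension at most `dim X`, such
that for all `K`, `n` and `j` the motive `H n j X` is a direct factor of a finite direct sum of the motives
`H n j (modS ℚ M)`, `M` in `L`.

(2) For every set `D` of degrees the following are equivalent: `dRB` is true for all finite direct sums of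
Tate twists of motives `H^n(Y)`, `n` in `D`, for smooth projective varieties `Y` of dimension at most `n`;
`dRB` is true for all finite direct sums of Tate twists of motives `Gr^W_n H^n_c(X)`, `n` in `D`, where
`X = modS ℚ M` is integral, smooth and of dimension at most `n`, and `M` is a simple framed matroid of rank
three.

(3) In particular Question 1 is true for all André motives over `K` if and only if it is true for all
finite direct sums of Tate twists of the motives `Gr^W_n H^n_c(X)`, where `n ≥ 0` and `X = modS ℚ M` is
integral, smooth and of dimension at most `n`. (By the Lefschetz theorems and Poincaré duality the twists of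
the motives `H^n(Y)` with `dim Y ≤ n` generate all André motives, in the sense of direct factors of finite
direct sums.)

The earlier reductions of the conjecture (to graph hypersurfaces, cubic hypersurfaces) lead to singular
schemes or to schemes of larger dimension, and they mix all degrees; they need the whole cohomology with
compact supports, affine bundles and products with `𝔾_m`. Here only one half of the long exact sequence is
used, in the one degree `n` and the one weight `n`. In the background is the theorem
`Pool.Agent.Helper13.RM.config_list` on arbitrary properties of schemes that are closed under cutting.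
-/

set_option autoImplicit false

open CategoryTheory AlgebraicGeometry Pool.Agent.Y116.UV Pool.Agent.Z125.UN Pool.Agent.Q193.LT
  Pool.Agent.Helper3.GU Pool.Agent.Helper13.RM Pool.Agent.Helper53.SZ Pool.Agent.Helper10.PC

universe v u

namespace Pool.Agent.Results.MP_470b79_ag.PlanarConfigurations

/-- **The de Rham-Betti conjecture and smooth moduli spaces of planar configurations.** See the
explanations above. -/
theorem result :
    (∀ X : Sch ℚ, FT True X →
      ∃ L : List Mat, (∀ M ∈ L, SmoothMod ℚ (topologicalKrullDim X.left) M.2) ∧
        ∀ {𝓜 : Type u} [Category.{v} 𝓜] [Abelian 𝓜]
          (_ : ∀ {N N' : 𝓜} (f : N ⟶ N'), Mono f → ∃ r : N' ⟶ N, f ≫ r = 𝟙 N)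
          {H : ℤ → Sch ℚ → 𝓜}, (∀ j, IsHalf (H j)) → ∀ j, Factor (OfMatroids H L) (H j X)) ∧
    ∀ {𝓜 : Type u} [Category.{v} 𝓜] [Abelian 𝓜]
      (_ : ∀ {N N' : 𝓜} (f : N ⟶ N'), Mono f → ∃ r : N' ⟶ N, f ≫ r = 𝟙 N)
      {H : ℕ → ℤ → Sch ℚ → 𝓜}, (∀ n j, IsHalf (H n j)) → GenDegree H →
      ∀ {dRB : 𝓜 → Prop}, Inherited dRB →
        (∀ D : Set ℕ, Sums (OfProjDeg H D) dRB ↔ Sums (OfModuli H D) dRB) ∧
        ((∀ N : 𝓜, Factor (OfProjDeg H Set.univ) N) →
          ((∀ N, dRB N) ↔ Sums (OfModuli H Set.univ) dRB)) :=
  ⟨fun X hX => factor_mod frac_rat X hX, fun {_} _ _ hss {_} hH hg {_} hP =>
    ⟨fun D => sums_mod frac_rat hH hg hss hP D, fun ha => all_mod frac_rat hH hg hss hP ha⟩⟩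

end Pool.Agent.Results.MP_470b79_ag.PlanarConfigurations
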